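import Mathlib

open MeasureTheory ProbabilityTheory Filter Topology
open scoped ENNReal NNReal

namespace Pool.N250.WMPLp

variable {𝕜 : Type*} [RCLike 𝕜]

/-- characteristic function of a dilated standard Gaussian -/
lemma charFun_map_mul (c : 𝕜) (t : 𝕜) :
    charFun ((stdGaussian 𝕜).map (fun z => c * z)) t
      = Complex.exp (-((‖c‖ ^ 2 * ‖t‖ ^ 2 / 2 : ℝ) : ℂ)) := by
  have h : charFun ((stdGaussian 𝕜).map (fun z => c * z)) t
      = charFun (stdGaussian 𝕜) ((starRingEnd 𝕜) c * t) := by
    rw [charFun_apply, charFun_apply, integral_map (by fun_prop) (by fun_prop)]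
    congr 1
    ext z
    congr 3
    change RCLike.re (t * (starRingEnd 𝕜) (c * z)) = RCLike.re ((starRingEnd 𝕜) c * t * (starRingEnd 𝕜) z)
    congr 1
    simp only [map_mul]
    ring
  rw [h, charFun_stdGaussian]
  congr 1
  rw [norm_mul, RCLike.norm_conj]
  push_cast
  ring

/-- law of a dilated Gaussian depends only on the modulus of the factor -/
lemma map_mul_eq (c d : 𝕜) (h : ‖c‖ = ‖d‖) :
    (stdGaussian 𝕜).map (fun z => c * z) = (stdGaussian 𝕜).map (fun z => d * z) := by
  have : IsProbabilityMeasure ((stdGaussian 𝕜).map (fun z => c * z)) :=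
    Measure.isProbabilityMeasure_map (by fun_prop)
  have : IsProbabilityMeasure ((stdGaussian 𝕜).map (fun z => d * z)) :=
    Measure.isProbabilityMeasure_map (by fun_prop)
  apply Measure.ext_of_charFun
  ext t
  rw [charFun_map_mul, charFun_map_mul, h]

variable {Ω : Type*} [MeasurableSpace Ω] {P : Measure Ω} [IsProbabilityMeasure P]

lemma map_add_eq {X Y : Ω → 𝕜} (hX : Measurable X) (hY : Measurable Y) (h : IndepFun X Y P)
    (a b : 𝕜) (hXa : P.map X = (stdGaussian 𝕜).map (fun z => a * z))
    (hYb : P.map Y = (stdGaussian 𝕜).map (fun z => b * z)) :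
    P.map (fun ω => X ω + Y ω)
      = (stdGaussian 𝕜).map (fun z => (Real.sqrt (‖a‖ ^ 2 + ‖b‖ ^ 2) : 𝕜) * z) := by
  have : IsProbabilityMeasure (P.map (fun ω => X ω + Y ω)) :=
    Measure.isProbabilityMeasure_map (by fun_prop)
  have : IsProbabilityMeasure ((stdGaussian 𝕜).map
      (fun z => (Real.sqrt (‖a‖ ^ 2 + ‖b‖ ^ 2) : 𝕜) * z)) :=
    Measure.isProbabilityMeasure_map (by fun_prop)
  apply Measure.ext_of_charFun
  rw [h.charFun_map_fun_add_eq_mul hX.aemeasurable hY.aemeasurable, hXa, hYb]
  ext t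
  rw [Pi.mul_apply, charFun_map_mul, charFun_map_mul, charFun_map_mul, ← Complex.exp_add]
  congr 1
  rw [RCLike.norm_ofReal, abs_of_nonneg (Real.sqrt_nonneg _), Real.sq_sqrt (by positivity)]
  push_cast
  ring

/-- linear combinations of i.i.d. standard Gaussians -/
lemma map_sum_eq {g : ℕ → Ω → 𝕜} (hg : ∀ n, Measurable (g n))
    (hlaw : ∀ n, P.map (g n) = stdGaussian 𝕜) (hind : iIndepFun g P) (x : ℕ → 𝕜)
    (s : Finset ℕ) :
    P.map (fun ω => ∑ i ∈ s, x i * g i ω)
      = (stdGaussian 𝕜).map (fun z => (Real.sqrt (∑ i ∈ s, ‖x i‖ ^ 2) : 𝕜) * z) := by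
  classical
  induction s using Finset.induction_on with
  | empty =>
    simp only [Finset.sum_empty, Real.sqrt_zero, RCLike.ofReal_zero, zero_mul]
    rw [Measure.map_const, Measure.map_const]
    simp
  | insert i s his ih =>
    have hind' : iIndepFun (fun n ω => x n * g n ω) P :=
      hind.comp (fun n z => x n * z) (fun n => by fun_prop)
    have h2 : IndepFun (fun ω => ∑ j ∈ s, x j * g j ω) (fun ω => x i * g i ω) P := by
      have := hind'.indepFun_finsetSum_of_notMem (fun n => by
        have := hg n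
        fun_prop) his
      have e : (∑ j ∈ s, fun ω => x j * g j ω) = fun ω => ∑ j ∈ s, x j * g j ω := by
        ext ω
        simp
      rw [e] at this
      exact this
    have hgi := hg i
    have h3 := map_add_eq (P := P) (X := fun ω => x i * g i ω) (Y := fun ω => ∑ j ∈ s, x j * g j ω)
      (by fun_prop) (Finset.measurable_sum _ (fun j _ => by have := hg j; fun_prop)) h2.symm
      (x i) (Real.sqrt (∑ j ∈ s, ‖x j‖ ^ 2) : 𝕜)
      (by
        have : (fun ω => x i * g i ω) = (fun z => x i * z) ∘ g i := rfl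
        rw [this, ← Measure.map_map (by fun_prop) hgi, hlaw]) ih
    simp only [Finset.sum_insert his]
    rw [h3]
    congr 1
    ext z
    rw [RCLike.norm_ofReal, abs_of_nonneg (Real.sqrt_nonneg _), Real.sq_sqrt
      (Finset.sum_nonneg (fun j _ => by positivity))]

end Pool.N250.WMPLp
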