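import Mathlib
import Pool.Agent.N250.WMPLp.A

open MeasureTheory ProbabilityTheory Filter Topology
open scoped ENNReal NNReal

namespace Pool.N250.WMPLp

variable {𝕜 : Type*} [RCLike 𝕜]

/-- Lebesgue measure on `[0,1]`. -/
noncomputable abbrev lam : Measure ℝ := (volume : Measure ℝ).restrict (Set.Icc 0 1)

instance : IsProbabilityMeasure lam := ⟨by simp⟩

lemma exists_map_eq {Y : Type*} [MeasurableSpace Y] [StandardBorelSpace Y] [Nonempty Y]
    (Q : Measure Y) [IsProbabilityMeasure Q] :
    ∃ f : ℝ → Y, Measurable f ∧ lam.map f = Q := by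
  obtain ⟨f, hf, hmap⟩ := Measure.exists_measurable_map_eq Q
  refine ⟨fun t => f (Set.projIcc 0 1 zero_le_one t), ?_, ?_⟩
  · exact hf.comp (continuous_projIcc.measurable)
  · have h1 : lam = (volume : Measure unitInterval).map Subtype.val := by
      rw [volume_set_coe_def, map_comap_subtype_coe measurableSet_Icc]
    have h3 : Measurable (fun t => f (Set.projIcc 0 1 zero_le_one t)) :=
      hf.comp (continuous_projIcc.measurable)
    rw [h1, Measure.map_map h3 measurable_subtype_coe]
    have h2 : (fun t => f (Set.projIcc 0 1 zero_le_one t)) ∘ Subtype.val = f := by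
      ext t
      simp [Set.projIcc_val]
    rw [h2, hmap]

lemma exists_iid : ∃ g : ℕ → ℝ → 𝕜, (∀ n, Measurable (g n)) ∧
    (∀ n, lam.map (g n) = stdGaussian 𝕜) ∧ iIndepFun g lam := by
  have : StandardBorelSpace 𝕜 := inferInstance
  obtain ⟨f, hf, hmap⟩ := exists_map_eq (Measure.infinitePi (fun _ : ℕ => stdGaussian 𝕜))
  refine ⟨fun n t => f t n, fun n => by fun_prop, fun n => ?_, ?_⟩
  · have : (fun t => f t n) = (fun x : ℕ → 𝕜 => x n) ∘ f := rfl
    beta_reduce
    rw [this, ← Measure.map_map (by fun_prop) hf, hmap]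
    exact Measure.infinitePi_map_eval (fun _ : ℕ => stdGaussian 𝕜) n
  · rw [iIndepFun_iff_map_fun_eq_infinitePi_map (by fun_prop)]
    have h1 : ∀ n, lam.map (fun t => f t n) = stdGaussian 𝕜 := by
      intro n
      have : (fun t => f t n) = (fun x : ℕ → 𝕜 => x n) ∘ f := rfl
      rw [this, ← Measure.map_map (by fun_prop) hf, hmap]
      exact Measure.infinitePi_map_eval (fun _ : ℕ => stdGaussian 𝕜) n
    simp only [h1]
    exact hmap

/-- The standard Gaussian charges the complement of every ball. -/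
lemma gauss_pos (R : ℝ) : stdGaussian 𝕜 {x : 𝕜 | R < ‖x‖} ≠ 0 := by
  have h1 : (stdGaussian 𝕜).map (fun x => RCLike.re x) = gaussianReal 0 1 := by
    have : IsProbabilityMeasure ((stdGaussian 𝕜).map (fun x => RCLike.re x)) :=
      Measure.isProbabilityMeasure_map (by fun_prop)
    apply Measure.ext_of_charFun
    ext t
    rw [charFun_gaussianReal, charFun_apply, integral_map (by fun_prop) (by fun_prop)]
    have h2 : ∀ x : 𝕜, Complex.exp ((inner ℝ (RCLike.re x) t : ℝ) * Complex.I)
        = Complex.exp ((inner ℝ x (t : 𝕜) : ℝ) * Complex.I) := by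
      intro x
      congr 3
      change t * RCLike.re x = RCLike.re ((t : 𝕜) * (starRingEnd 𝕜) x)
      rw [RCLike.re_ofReal_mul, RCLike.conj_re]
    simp_rw [h2]
    rw [← charFun_apply, charFun_stdGaussian]
    have h5 : ((|t| : ℝ) : ℂ) ^ 2 = (t : ℂ) ^ 2 := by
      exact_mod_cast sq_abs t
    simp [h5]
    ring_nf
  intro h0
  have h3 : (gaussianReal 0 1) (Set.Ioi R) = 0 := by
    rw [← h1, Measure.map_apply (by fun_prop) measurableSet_Ioi]
    refine measure_mono_null ?_ h0
    intro x hx
    simp only [Set.mem_preimage, Set.mem_Ioi, Set.mem_ofPred_eq] at *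
    exact lt_of_lt_of_le hx (RCLike.re_le_norm x)
  have h4 := gaussianReal_absolutelyContinuous' (0 : ℝ) (one_ne_zero (α := ℝ≥0)) h3
  simp at h4

end Pool.N250.WMPLp
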