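import Mathlib
import Pool.Agent.N250.WMPLp.B

open MeasureTheory ProbabilityTheory Filter Topology
open scoped ENNReal NNReal

namespace Pool.N250.WMPLp

variable {𝕜 : Type*} [RCLike 𝕜]

/-- the tangent inequality -/
lemma tangent_aux {ρ u u0 c : ℝ} (hρ : 1 < ρ) (hu : 0 ≤ u) (hu0 : 0 < u0) (hc : 0 < c) :
    (u + c) ^ ρ ≤ ((u0 + c) / u0) ^ (ρ - 1) * u ^ ρ + c * (u0 + c) ^ (ρ - 1) ∧
    (u ≠ u0 → (u + c) ^ ρ < ((u0 + c) / u0) ^ (ρ - 1) * u ^ ρ + c * (u0 + c) ^ (ρ - 1)) := by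
  have hs : 0 < u0 + c := by positivity
  set θ := u0 / (u0 + c) with hθ
  have hθ0 : 0 < θ := by positivity
  have h1θ : 1 - θ = c / (u0 + c) := by
    rw [hθ]; field_simp; ring
  have h1θ0 : 0 < 1 - θ := by rw [h1θ]; positivity
  set x := u * ((u0 + c) / u0) with hx
  have hx0 : 0 ≤ x := by positivity
  have e1 : θ * x + (1 - θ) * (u0 + c) = u + c := by
    rw [h1θ, hθ, hx]; field_simp
  have e2 : θ * x ^ ρ = ((u0 + c) / u0) ^ (ρ - 1) * u ^ ρ := by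
    rw [hx, Real.mul_rpow hu (by positivity)]
    have : ((u0 + c) / u0) ^ ρ = ((u0 + c) / u0) ^ (ρ - 1) * ((u0 + c) / u0) := by
      rw [← Real.rpow_add_one (by positivity)]; congr 1; ring
    rw [this, hθ]
    field_simp
  have e3 : (1 - θ) * (u0 + c) ^ ρ = c * (u0 + c) ^ (ρ - 1) := by
    have : (u0 + c) ^ ρ = (u0 + c) ^ (ρ - 1) * (u0 + c) := by
      rw [← Real.rpow_add_one (by positivity)]; congr 1; ring
    rw [this, h1θ]
    field_simp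
  constructor
  · have := (strictConvexOn_rpow hρ).convexOn.2 (x := x) (y := u0 + c) hx0 hs.le hθ0.le h1θ0.le
      (by ring)
    simp only [smul_eq_mul] at this
    rw [e1, e2, e3] at this
    exact this
  · intro hne
    have hxy : x ≠ u0 + c := by
      intro h
      apply hne
      rw [hx] at h
      field_simp at h
      nlinarith
    have := (strictConvexOn_rpow hρ).2 (x := x) (y := u0 + c) hx0 hs.le hxy hθ0 h1θ0
      (by ring)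
    simp only [smul_eq_mul] at this
    rw [e1, e2, e3] at this
    exact this

variable (𝕜) in
/-- the `r`-th absolute moment of the standard Gaussian -/
noncomputable def kap (r : ℝ) : ℝ≥0∞ := ∫⁻ z, ENNReal.ofReal (‖z‖ ^ r) ∂(stdGaussian 𝕜)

lemma kap_ne_top {r : ℝ} (hr : 0 < r) : kap 𝕜 r ≠ ∞ := by
  have h := IsGaussian.memLp_id (stdGaussian 𝕜) (ENNReal.ofReal r) (by simp)
  have h2 := h.integrable_norm_rpow (by simp [hr]) (by simp)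
  rw [ENNReal.toReal_ofReal hr.le] at h2
  have h3 := h2.lintegral_lt_top
  exact h3.ne

lemma kap_ne_zero {r : ℝ} (hr : 0 < r) : kap 𝕜 r ≠ 0 := by
  intro h
  rw [kap, lintegral_eq_zero_iff (by fun_prop)] at h
  apply gauss_pos (𝕜 := 𝕜) 0
  refine measure_mono_null ?_ h
  intro x hx
  simp only [Set.mem_ofPred_eq, Set.mem_compl_iff, Pi.zero_apply] at *
  intro h2
  have : 0 < ‖x‖ ^ r := Real.rpow_pos_of_pos hx r
  simp at h2
  linarith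

variable (𝕜) in
/-- the `r`-norm of the standard Gaussian -/
noncomputable def KK (r : ℝ) : ℝ := (kap 𝕜 r).toReal ^ (1 / r)

lemma KK_pos {r : ℝ} (hr : 0 < r) : 0 < KK 𝕜 r := by
  apply Real.rpow_pos_of_pos
  exact ENNReal.toReal_pos (kap_ne_zero hr) (kap_ne_top hr)

lemma kap_eq {r : ℝ} (hr : 0 < r) : kap 𝕜 r = ENNReal.ofReal (KK 𝕜 r ^ r) := by
  rw [KK, ← Real.rpow_mul ENNReal.toReal_nonneg, one_div_mul_cancel hr.ne', Real.rpow_one,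
    ENNReal.ofReal_toReal (kap_ne_top hr)]

/-- strict Jensen, inner integral -/
lemma inner_lt {ρ c : ℝ} (hρ : 1 < ρ) (hc : 0 < c) :
    ∫⁻ x, ENNReal.ofReal ((‖x‖ ^ 2 + c) ^ ρ) ∂(stdGaussian 𝕜)
      < ENNReal.ofReal ((KK 𝕜 (2 * ρ) ^ 2 + c) ^ ρ) := by
  have hρ0 : 0 < 2 * ρ := by positivity
  have hK := KK_pos (𝕜 := 𝕜) hρ0
  set K := KK 𝕜 (2 * ρ) with hKdef
  have hpow : ∀ x : 𝕜, (‖x‖ ^ 2) ^ ρ = ‖x‖ ^ (2 * ρ) := by
    intro x
    rw [Real.rpow_mul (norm_nonneg _)]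
    norm_num
  have hKpow : (K ^ 2) ^ ρ = K ^ (2 * ρ) := by
    rw [Real.rpow_mul hK.le]
    norm_num
  set A : ℝ := ((K ^ 2 + c) / K ^ 2) ^ (ρ - 1) with hA
  set B : ℝ := c * (K ^ 2 + c) ^ (ρ - 1) with hB
  have hA0 : 0 ≤ A := by positivity
  have hB0 : 0 ≤ B := by positivity
  have hint : ∫⁻ x, ENNReal.ofReal (A * ‖x‖ ^ (2 * ρ) + B) ∂(stdGaussian 𝕜)
      = ENNReal.ofReal ((K ^ 2 + c) ^ ρ) := by
    have h1 : ∀ x : 𝕜, ENNReal.ofReal (A * ‖x‖ ^ (2 * ρ) + B)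
        = ENNReal.ofReal A * ENNReal.ofReal (‖x‖ ^ (2 * ρ)) + ENNReal.ofReal B := by
      intro x
      rw [ENNReal.ofReal_add (by positivity) hB0, ENNReal.ofReal_mul hA0]
    simp_rw [h1]
    rw [lintegral_add_right _ (by fun_prop), lintegral_const_mul _ (by fun_prop)]
    simp only [lintegral_const, measure_univ, mul_one]
    change ENNReal.ofReal A * kap 𝕜 (2 * ρ) + _ = _
    rw [kap_eq hρ0, ← ENNReal.ofReal_mul hA0, ← ENNReal.ofReal_add (by positivity) hB0]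
    congr 1
    rw [← hKdef, ← hKpow, hA, hB, Real.div_rpow (by positivity) (by positivity)]
    have e1 : (K ^ 2) ^ ρ = (K ^ 2) ^ (ρ - 1) * K ^ 2 := by
      rw [← Real.rpow_add_one (by positivity)]; congr 1; ring
    have e2 : (K ^ 2 + c) ^ ρ = (K ^ 2 + c) ^ (ρ - 1) * (K ^ 2 + c) := by
      rw [← Real.rpow_add_one (by positivity)]; congr 1; ring
    rw [e1, e2]
    have : (K ^ 2) ^ (ρ - 1) ≠ 0 := by positivity
    field_simp
  rw [← hint]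
  have hle : ∀ x : 𝕜, ENNReal.ofReal ((‖x‖ ^ 2 + c) ^ ρ)
      ≤ ENNReal.ofReal (A * ‖x‖ ^ (2 * ρ) + B) := by
    intro x
    apply ENNReal.ofReal_le_ofReal
    rw [← hpow]
    exact (tangent_aux hρ (by positivity) (by positivity) hc).1
  refine lintegral_strict_mono_of_ae_le_of_ae_lt_on (by fun_prop) ?_
    (Eventually.of_forall hle) (gauss_pos K) (Eventually.of_forall ?_)
  · refine ne_of_lt (lt_of_le_of_lt (lintegral_mono hle) ?_)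
    rw [hint]
    exact ENNReal.ofReal_lt_top
  · intro x hx
    simp only [Set.mem_ofPred_eq] at hx
    have hlt := (tangent_aux (u := ‖x‖ ^ 2) hρ (by positivity) (u0 := K ^ 2) (by positivity) hc).2
      (by
        intro h
        have := (sq_lt_sq₀ hK.le (norm_nonneg x)).2 hx
        linarith)
    rw [hpow] at hlt
    rw [ENNReal.ofReal_lt_ofReal_iff]
    · exact hlt
    · exact lt_of_le_of_lt (by positivity) hlt

lemma outer_lt {ρ : ℝ} (hρ : 1 < ρ) :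
    ∫⁻ y, ∫⁻ x, ENNReal.ofReal ((‖x‖ ^ 2 + ‖y‖ ^ 2) ^ ρ) ∂(stdGaussian 𝕜) ∂(stdGaussian 𝕜)
      < ∫⁻ y, ENNReal.ofReal ((KK 𝕜 (2 * ρ) ^ 2 + ‖y‖ ^ 2) ^ ρ) ∂(stdGaussian 𝕜) := by
  have hρ0 : 0 < 2 * ρ := by positivity
  have hK := KK_pos (𝕜 := 𝕜) hρ0
  have hpow : ∀ x : ℝ, 0 ≤ x → (x ^ 2) ^ ρ = x ^ (2 * ρ) := by
    intro x hx
    rw [Real.rpow_mul hx]
    norm_num
  have hfin : ∫⁻ y, ENNReal.ofReal ((KK 𝕜 (2 * ρ) ^ 2 + ‖y‖ ^ 2) ^ ρ) ∂(stdGaussian 𝕜) ≠ ∞ := by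
    have := inner_lt (𝕜 := 𝕜) (c := KK 𝕜 (2 * ρ) ^ 2) hρ (by positivity)
    simp_rw [add_comm (KK 𝕜 (2 * ρ) ^ 2) (‖_‖ ^ 2)]
    exact ne_top_of_lt this
  have hle : ∀ y : 𝕜, ∫⁻ x, ENNReal.ofReal ((‖x‖ ^ 2 + ‖y‖ ^ 2) ^ ρ) ∂(stdGaussian 𝕜)
      ≤ ENNReal.ofReal ((KK 𝕜 (2 * ρ) ^ 2 + ‖y‖ ^ 2) ^ ρ) := by
    intro y
    rcases eq_or_ne y 0 with rfl | hy
    · simp only [norm_zero, ne_eq, OfNat.ofNat_ne_zero, not_false_eq_true, zero_pow, add_zero]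
      rw [hpow _ hK.le, ← kap_eq hρ0, kap]
      simp_rw [hpow _ (norm_nonneg _)]
      exact le_rfl
    · exact (inner_lt hρ (by positivity)).le
  refine lintegral_strict_mono_of_ae_le_of_ae_lt_on (by fun_prop) ?_
    (Eventually.of_forall hle) (gauss_pos 0) (Eventually.of_forall ?_)
  · exact ne_of_lt (lt_of_le_of_lt (lintegral_mono hle) (lt_top_iff_ne_top.2 hfin))
  · intro y hy
    simp only [Set.mem_ofPred_eq] at hy
    exact inner_lt hρ (by positivity)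

/-- two-dimensional stability of the Gaussian in integrated form -/
lemma lintegral_comb {r : ℝ} (hr : 0 < r) (s t : 𝕜) :
    ∫⁻ y, ∫⁻ x, ENNReal.ofReal (‖s * x + y * t‖ ^ r) ∂(stdGaussian 𝕜) ∂(stdGaussian 𝕜)
      = ENNReal.ofReal ((‖s‖ ^ 2 + ‖t‖ ^ 2) ^ (r / 2)) * kap 𝕜 r := by
  have hind : IndepFun (fun p : 𝕜 × 𝕜 => s * p.1) (fun p : 𝕜 × 𝕜 => p.2 * t)
      ((stdGaussian 𝕜).prod (stdGaussian 𝕜)) :=
    indepFun_prod (X := fun x : 𝕜 => s * x) (Y := fun x : 𝕜 => x * t) (by fun_prop) (by fun_prop)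
  have h1 : ((stdGaussian 𝕜).prod (stdGaussian 𝕜)).map (fun p : 𝕜 × 𝕜 => s * p.1)
      = (stdGaussian 𝕜).map (fun z => s * z) := by
    have : (fun p : 𝕜 × 𝕜 => s * p.1) = (fun z => s * z) ∘ Prod.fst := rfl
    rw [this, ← Measure.map_map (by fun_prop) measurable_fst, measurePreserving_fst.map_eq]
  have h2 : ((stdGaussian 𝕜).prod (stdGaussian 𝕜)).map (fun p : 𝕜 × 𝕜 => p.2 * t)
      = (stdGaussian 𝕜).map (fun z => t * z) := by
    have : (fun p : 𝕜 × 𝕜 => p.2 * t) = (fun z => t * z) ∘ Prod.snd := by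
      ext p; simp [mul_comm]
    rw [this, ← Measure.map_map (by fun_prop) measurable_snd, measurePreserving_snd.map_eq]
  have h3 := map_add_eq (by fun_prop) (by fun_prop) hind s t h1 h2
  have h4 : ∫⁻ p, ENNReal.ofReal (‖s * p.1 + p.2 * t‖ ^ r) ∂((stdGaussian 𝕜).prod (stdGaussian 𝕜))
      = ∫⁻ z, ENNReal.ofReal (‖z‖ ^ r) ∂(((stdGaussian 𝕜).prod (stdGaussian 𝕜)).map
        (fun p : 𝕜 × 𝕜 => s * p.1 + p.2 * t)) := by
    rw [lintegral_map (by fun_prop) (by fun_prop)]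
  rw [h3, lintegral_map (by fun_prop) (by fun_prop)] at h4
  rw [lintegral_prod_symm' _ (by fun_prop)] at h4
  rw [h4]
  have h5 : ∀ z : 𝕜, ENNReal.ofReal (‖((Real.sqrt (‖s‖ ^ 2 + ‖t‖ ^ 2) : ℝ) : 𝕜) * z‖ ^ r)
      = ENNReal.ofReal ((‖s‖ ^ 2 + ‖t‖ ^ 2) ^ (r / 2)) * ENNReal.ofReal (‖z‖ ^ r) := by
    intro z
    rw [← ENNReal.ofReal_mul (by positivity), norm_mul, Real.mul_rpow (by positivity) (by positivity),
      RCLike.norm_ofReal, abs_of_nonneg (Real.sqrt_nonneg _), Real.sqrt_eq_rpow,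
      ← Real.rpow_mul (by positivity)]
    congr 3
    ring
  simp_rw [h5]
  rw [lintegral_const_mul _ (by fun_prop)]
  rfl

/-- The key strict inequality: for `r > 2` some combination `K a + b G` with
`|a|² + |b|² = 1` beats `K = ‖G‖_r`. -/
lemma key {r : ℝ} (hr : 2 < r) :
    ∃ a b : 𝕜, ENNReal.ofReal ((‖a‖ ^ 2 + ‖b‖ ^ 2) ^ (r / 2)) * kap 𝕜 r
      < ∫⁻ z, ENNReal.ofReal (‖(KK 𝕜 r : 𝕜) * a + b * z‖ ^ r) ∂(stdGaussian 𝕜) := by
  by_contra! hcon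
  have hr0 : 0 < r := by linarith
  have hρ : 1 < r / 2 := by linarith
  have hrr : 2 * (r / 2) = r := by ring
  have hK := KK_pos (𝕜 := 𝕜) hr0
  have h1 : ∫⁻ y, ∫⁻ x, ∫⁻ z, ENNReal.ofReal (‖(KK 𝕜 r : 𝕜) * x + y * z‖ ^ r) ∂(stdGaussian 𝕜)
      ∂(stdGaussian 𝕜) ∂(stdGaussian 𝕜)
      ≤ ∫⁻ y, ∫⁻ x, ENNReal.ofReal ((‖x‖ ^ 2 + ‖y‖ ^ 2) ^ (r / 2)) * kap 𝕜 r ∂(stdGaussian 𝕜)
        ∂(stdGaussian 𝕜) :=
    lintegral_mono (fun y => lintegral_mono (fun x => hcon x y))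
  have h2 : ∫⁻ y, ∫⁻ x, ∫⁻ z, ENNReal.ofReal (‖(KK 𝕜 r : 𝕜) * x + y * z‖ ^ r) ∂(stdGaussian 𝕜)
      ∂(stdGaussian 𝕜) ∂(stdGaussian 𝕜)
      = ∫⁻ z, ENNReal.ofReal ((KK 𝕜 r ^ 2 + ‖z‖ ^ 2) ^ (r / 2)) * kap 𝕜 r ∂(stdGaussian 𝕜) := by
    have h3 : ∀ y : 𝕜, ∫⁻ x, ∫⁻ z, ENNReal.ofReal (‖(KK 𝕜 r : 𝕜) * x + y * z‖ ^ r) ∂(stdGaussian 𝕜)
      ∂(stdGaussian 𝕜) = ∫⁻ z, ∫⁻ x, ENNReal.ofReal (‖(KK 𝕜 r : 𝕜) * x + y * z‖ ^ r)
        ∂(stdGaussian 𝕜) ∂(stdGaussian 𝕜) := by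
      intro y
      apply lintegral_lintegral_swap
      apply Measurable.aemeasurable
      unfold Function.uncurry
      fun_prop
    simp_rw [h3]
    rw [lintegral_lintegral_swap]
    · apply lintegral_congr
      intro z
      rw [lintegral_comb hr0]
      congr 4
      rw [RCLike.norm_ofReal, abs_of_pos hK]
    · apply Measurable.aemeasurable
      unfold Function.uncurry
      apply Measurable.lintegral_prod_right'
        (f := fun p : (𝕜 × 𝕜) × 𝕜 => ENNReal.ofReal (‖(KK 𝕜 r : 𝕜) * p.2 + p.1.1 * p.1.2‖ ^ r))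
      fun_prop
  rw [h2] at h1
  rw [lintegral_mul_const _ (by fun_prop)] at h1
  have h4 : ∀ y : 𝕜, ∫⁻ x, ENNReal.ofReal ((‖x‖ ^ 2 + ‖y‖ ^ 2) ^ (r / 2)) * kap 𝕜 r
      ∂(stdGaussian 𝕜) = (∫⁻ x, ENNReal.ofReal ((‖x‖ ^ 2 + ‖y‖ ^ 2) ^ (r / 2))
      ∂(stdGaussian 𝕜)) * kap 𝕜 r := by
    intro y
    rw [lintegral_mul_const _ (by fun_prop)]
  simp_rw [h4] at h1
  rw [lintegral_mul_const] at h1
  · have h5 := outer_lt (𝕜 := 𝕜) hρ
    rw [hrr] at h5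
    have h6 := ENNReal.mul_lt_mul_left (kap_ne_zero (𝕜 := 𝕜) hr0) (kap_ne_top hr0) h5
    exact absurd h1 (not_le.2 h6)
  · apply Measurable.lintegral_prod_right'
      (f := fun p : 𝕜 × 𝕜 => ENNReal.ofReal ((‖p.2‖ ^ 2 + ‖p.1‖ ^ 2) ^ (r / 2)))
    fun_prop

end Pool.N250.WMPLp
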