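import Mathlib
import Pool.Agent.N250.WMPLp.C

open MeasureTheory ProbabilityTheory Filter Topology
open scoped ENNReal NNReal

namespace Pool.N250.WMPLp

variable {𝕜 : Type*} [RCLike 𝕜]

section general
variable {α : Type*} [MeasurableSpace α] {ν : Measure α}

lemma norm_toLp_rpow {q : ℝ≥0∞} (hq0 : q ≠ 0) (hq : q ≠ ∞) {f : α → 𝕜} (hf : MemLp f q ν) :
    ENNReal.ofReal (‖hf.toLp f‖ ^ q.toReal) = ∫⁻ z, ENNReal.ofReal (‖f z‖ ^ q.toReal) ∂ν := by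
  have hr : 0 < q.toReal := ENNReal.toReal_pos hq0 hq
  rw [← ofReal_integral_eq_lintegral_ofReal (hf.integrable_norm_rpow hq0 hq)
    (Eventually.of_forall (fun x => by positivity)), Lp.norm_toLp,
    hf.eLpNorm_eq_integral_rpow_norm hq0 hq, ENNReal.toReal_ofReal (by positivity),
    ← Real.rpow_mul (by positivity), inv_mul_cancel₀ hr.ne', Real.rpow_one]

/-- norms in `L^q` only depend on the law -/
lemma norm_toLp_congr_law {β : Type*} [MeasurableSpace β] {ν' : Measure β} {q : ℝ≥0∞}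
    {f : α → 𝕜} (hf : MemLp f q ν) {f' : β → 𝕜} (hf' : MemLp f' q ν')
    (h : ν.map f = ν'.map f') : ‖hf.toLp f‖ = ‖hf'.toLp f'‖ := by
  rw [Lp.norm_toLp, Lp.norm_toLp]
  congr 1
  have h1 : eLpNorm f q ν = eLpNorm id q (ν.map f) := by
    rw [eLpNorm_map_measure aestronglyMeasurable_id hf.1.aemeasurable]
    rfl
  have h2 : eLpNorm f' q ν' = eLpNorm id q (ν'.map f') := by
    rw [eLpNorm_map_measure aestronglyMeasurable_id hf'.1.aemeasurable]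
    rfl
  rw [h1, h2, h]

end general

section gauss
variable {q : ℝ≥0∞} 

lemma memG (hq : q ≠ ∞) : MemLp (fun z : 𝕜 => z) q (stdGaussian 𝕜) :=
  IsGaussian.memLp_id (stdGaussian 𝕜) q hq

variable (𝕜 q) in
/-- the constant function `1` -/
noncomputable def oneZ : Lp 𝕜 q (stdGaussian 𝕜) := (memLp_const (1 : 𝕜)).toLp (fun _ => (1 : 𝕜))

variable (𝕜) in
/-- the Gaussian variable -/
noncomputable def GZ (hq : q ≠ ∞) : Lp 𝕜 q (stdGaussian 𝕜) := (memG hq).toLp (fun z : 𝕜 => z)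

lemma memComb (hq : q ≠ ∞) (a b : 𝕜) : MemLp (fun z : 𝕜 => a + b * z) q (stdGaussian 𝕜) :=
  (memLp_const a).add ((memG hq).const_mul b)

lemma comb_eq (hq : q ≠ ∞) (a b : 𝕜) :
    a • oneZ 𝕜 q + b • GZ 𝕜 hq = (memComb hq a b).toLp (fun z : 𝕜 => a + b * z) := by
  rw [oneZ, GZ, ← MemLp.toLp_const_smul, ← MemLp.toLp_const_smul, ← MemLp.toLp_add]
  apply MemLp.toLp_congr
  filter_upwards with z
  simp

lemma norm_comb_abs (hq : q ≠ ∞) (a b c : 𝕜) (h : ‖b‖ = ‖c‖) :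
    ‖a • oneZ 𝕜 q + b • GZ 𝕜 hq‖ = ‖a • oneZ 𝕜 q + c • GZ 𝕜 hq‖ := by
  rw [comb_eq, comb_eq]
  apply norm_toLp_congr_law
  have h1 : ∀ d : 𝕜, (stdGaussian 𝕜).map (fun z : 𝕜 => a + d * z)
      = ((stdGaussian 𝕜).map (fun z : 𝕜 => d * z)).map (fun z => a + z) := by
    intro d
    rw [Measure.map_map (by fun_prop) (by fun_prop)]
    rfl
  rw [h1, h1, map_mul_eq b c h]

lemma norm_oneZ (hq0 : q ≠ 0) : ‖oneZ 𝕜 q‖ = 1 := by
  rw [oneZ, Lp.norm_toLp, eLpNorm_const _ hq0 (IsProbabilityMeasure.ne_zero _)]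
  simp

lemma norm_GZ [Fact (1 ≤ q)] (hq0 : q ≠ 0) (hq : q ≠ ∞) : ‖GZ 𝕜 hq‖ = KK 𝕜 q.toReal := by
  have hr : 0 < q.toReal := ENNReal.toReal_pos hq0 hq
  have h := norm_toLp_rpow hq0 hq (memG (𝕜 := 𝕜) hq)
  change _ = kap 𝕜 q.toReal at h
  rw [kap_eq hr, ENNReal.ofReal_eq_ofReal_iff (by positivity)
    (Real.rpow_nonneg (KK_pos hr).le _)] at h
  exact (Real.rpow_left_inj (norm_nonneg _) (KK_pos hr).le hr.ne').1 h

/-- the extremal combination -/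
lemma extremal [Fact (1 ≤ q)] (hq2 : 2 < q) (hq : q ≠ ∞) :
    ∃ (M : ℝ) (a b : 𝕜), KK 𝕜 q.toReal < M ∧ ‖a‖ ^ 2 + ‖b‖ ^ 2 = 1 ∧
      ‖((KK 𝕜 q.toReal : 𝕜) * a) • oneZ 𝕜 q + b • GZ 𝕜 hq‖ = M ∧
      ∀ x y : 𝕜, ‖((KK 𝕜 q.toReal : 𝕜) * x) • oneZ 𝕜 q + y • GZ 𝕜 hq‖
        ≤ M * Real.sqrt (‖x‖ ^ 2 + ‖y‖ ^ 2) := by
  have hq0 : q ≠ 0 := (lt_trans (by norm_num) hq2).ne'
  have hr : 0 < q.toReal := ENNReal.toReal_pos hq0 hq
  have hr2 : 2 < q.toReal := by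
    have := (ENNReal.toReal_lt_toReal (by norm_num) hq).2 hq2
    simpa using this
  set K := KK 𝕜 q.toReal with hKdef
  have hK : 0 < K := KK_pos hr
  set Φ : 𝕜 × 𝕜 → ℝ := fun p => ‖((K : 𝕜) * p.1) • oneZ 𝕜 q + p.2 • GZ 𝕜 hq‖ with hΦ
  have hΦc : Continuous Φ := by
    rw [hΦ]
    fun_prop
  set Sph : Set (𝕜 × 𝕜) := {p | ‖p.1‖ ^ 2 + ‖p.2‖ ^ 2 = 1} with hSph
  have hSc : IsCompact Sph := by
    apply Metric.isCompact_of_isClosed_isBounded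
    · exact isClosed_eq (by fun_prop) continuous_const
    · refine (Metric.isBounded_closedBall (x := (0 : 𝕜 × 𝕜)) (r := 1)).subset ?_
      intro p hp
      have hp' : ‖p.1‖ ^ 2 + ‖p.2‖ ^ 2 = 1 := hp
      rw [mem_closedBall_zero_iff, Prod.norm_def]
      have := norm_nonneg p.1
      have := norm_nonneg p.2
      apply max_le <;> nlinarith
  have hSn : Sph.Nonempty := ⟨(1, 0), by simp [hSph]⟩
  obtain ⟨p, hp, hmax⟩ := hSc.exists_isMaxOn hSn hΦc.continuousOn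
  have hhom : ∀ x y : 𝕜, Φ (x, y) ≤ Φ p * Real.sqrt (‖x‖ ^ 2 + ‖y‖ ^ 2) := by
    intro x y
    set n := Real.sqrt (‖x‖ ^ 2 + ‖y‖ ^ 2) with hn
    rcases eq_or_lt_of_le (Real.sqrt_nonneg (‖x‖ ^ 2 + ‖y‖ ^ 2)) with h0 | h0
    · have h1 : ‖x‖ ^ 2 + ‖y‖ ^ 2 = 0 := by
        rwa [eq_comm, Real.sqrt_eq_zero (by positivity)] at h0
      have hx : x = 0 := by
        have : ‖x‖ ^ 2 = 0 := by nlinarith [sq_nonneg ‖x‖, sq_nonneg ‖y‖]
        simpa using this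
      have hy : y = 0 := by
        have : ‖y‖ ^ 2 = 0 := by nlinarith [sq_nonneg ‖x‖, sq_nonneg ‖y‖]
        simpa using this
      subst hx hy
      simp [hΦ, hn]
    · have hn0 : 0 < n := h0
      have hn2 : n ^ 2 = ‖x‖ ^ 2 + ‖y‖ ^ 2 := Real.sq_sqrt (by positivity)
      have hmem : (((n⁻¹ : ℝ) : 𝕜) * x, ((n⁻¹ : ℝ) : 𝕜) * y) ∈ Sph := by
        simp only [hSph, Set.mem_ofPred_eq, norm_mul, RCLike.norm_ofReal, abs_inv, abs_of_pos hn0]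
        field_simp
        rw [hn2]
      have h2 := hmax hmem
      have h3 : Φ (((n⁻¹ : ℝ) : 𝕜) * x, ((n⁻¹ : ℝ) : 𝕜) * y) = n⁻¹ * Φ (x, y) := by
        simp only [hΦ]
        have h7 : ((K : 𝕜) * (((n⁻¹ : ℝ) : 𝕜) * x)) • oneZ 𝕜 q + (((n⁻¹ : ℝ) : 𝕜) * y) • GZ 𝕜 hq
            = ((n⁻¹ : ℝ) : 𝕜) • (((K : 𝕜) * x) • oneZ 𝕜 q + y • GZ 𝕜 hq) := by
          rw [smul_add, smul_smul, smul_smul]
          congr 2
          ring
        rw [h7, norm_smul, RCLike.norm_ofReal, abs_of_pos (inv_pos.2 hn0)]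
      simp only [Set.mem_ofPred_eq] at h2
      rw [h3] at h2
      rw [inv_mul_le_iff₀ hn0] at h2
      linarith
  refine ⟨Φ p, p.1, p.2, ?_, hp, rfl, fun x y => hhom x y⟩
  obtain ⟨a, b, hab⟩ := key (𝕜 := 𝕜) hr2
  have h1 : ENNReal.ofReal ((‖a‖ ^ 2 + ‖b‖ ^ 2) ^ (q.toReal / 2)) * kap 𝕜 q.toReal
      < ENNReal.ofReal (Φ (a, b) ^ q.toReal) := by
    simp only [hΦ]
    rw [comb_eq, norm_toLp_rpow hq0 hq]
    exact hab
  rw [kap_eq hr, ← ENNReal.ofReal_mul (by positivity), ENNReal.ofReal_lt_ofReal_iff'] at h1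
  have h2 : (‖a‖ ^ 2 + ‖b‖ ^ 2) ^ (q.toReal / 2)
      = (Real.sqrt (‖a‖ ^ 2 + ‖b‖ ^ 2)) ^ q.toReal := by
    rw [Real.sqrt_eq_rpow, ← Real.rpow_mul (by positivity)]
    congr 1
    ring
  have h3 := h1.1
  rw [h2, ← Real.mul_rpow (Real.sqrt_nonneg _) hK.le] at h3
  have hΦab : 0 ≤ Φ (a, b) := norm_nonneg _
  have h4 := (Real.rpow_lt_rpow_iff (by positivity) hΦab hr).1 h3
  have h5 := lt_of_lt_of_le h4 (hhom a b)
  have h6 : 0 < Real.sqrt (‖a‖ ^ 2 + ‖b‖ ^ 2) := by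
    rcases eq_or_lt_of_le (Real.sqrt_nonneg (‖a‖ ^ 2 + ‖b‖ ^ 2)) with h0 | h0
    · rw [← h0] at h5
      simp at h5
    · exact h0
  rw [mul_comm] at h5
  exact lt_of_mul_lt_mul_right h5 h6.le

end gauss

/-- the law of affine combinations of the i.i.d. sequence -/
lemma norm_comb_sum {q : ℝ≥0∞} (hq : q ≠ ∞) {g : ℕ → ℝ → 𝕜} (hg : ∀ n, Measurable (g n))
    (hlaw : ∀ n, lam.map (g n) = stdGaussian 𝕜) (hind : iIndepFun g lam)
    (hmem : ∀ n, MemLp (g n) q lam) (a : 𝕜) (x : ℕ → 𝕜) (s : Finset ℕ) :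
    ‖a • (memLp_const (1 : 𝕜)).toLp (p := q) (μ := lam) (fun _ => (1 : 𝕜))
        + ∑ i ∈ s, x i • (hmem i).toLp (g i)‖
      = ‖a • oneZ 𝕜 q + ((Real.sqrt (∑ i ∈ s, ‖x i‖ ^ 2) : ℝ) : 𝕜) • GZ 𝕜 hq‖ := by
  have hm : MemLp (fun ω => a + ∑ i ∈ s, x i * g i ω) q lam :=
    (memLp_const a).add (memLp_finsetSum s (fun i _ => (hmem i).const_mul (x i)))
  have h1 : a • (memLp_const (1 : 𝕜)).toLp (p := q) (μ := lam) (fun _ => (1 : 𝕜))
        + ∑ i ∈ s, x i • (hmem i).toLp (g i) = hm.toLp _ := by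
    apply Lp.ext
    refine EventuallyEq.trans (Lp.coeFn_add _ _) ?_
    refine EventuallyEq.trans ?_ hm.coeFn_toLp.symm
    refine EventuallyEq.add ?_ ?_
    · refine EventuallyEq.trans (Lp.coeFn_smul _ _) ?_
      filter_upwards [(memLp_const (1 : 𝕜) (p := q) (μ := lam)).coeFn_toLp] with ω hω
      rw [Pi.smul_apply, hω, smul_eq_mul, mul_one]
    · refine EventuallyEq.trans (Lp.coeFn_finsetSum s _) ?_
      have h2 : ∀ᵐ ω ∂lam, ∀ i ∈ s, (x i • (hmem i).toLp (g i) : Lp 𝕜 q lam) ω = x i * g i ω := by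
        rw [Filter.eventually_all_finset]
        intro i _
        filter_upwards [Lp.coeFn_smul (x i) ((hmem i).toLp (g i)), (hmem i).coeFn_toLp] with ω h3 h4
        rw [h3, Pi.smul_apply, h4, smul_eq_mul]
      filter_upwards [h2] with ω hω
      rw [Finset.sum_apply]
      exact Finset.sum_congr rfl hω
  rw [h1, comb_eq]
  apply norm_toLp_congr_law
  have h5 : lam.map (fun ω => a + ∑ i ∈ s, x i * g i ω)
      = (lam.map (fun ω => ∑ i ∈ s, x i * g i ω)).map (fun z => a + z) := by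
    rw [Measure.map_map (by fun_prop)
      (Finset.measurable_sum _ (fun j _ => by have := hg j; fun_prop))]
    rfl
  rw [h5, map_sum_eq hg hlaw hind, Measure.map_map (by fun_prop) (by fun_prop)]
  rfl

end Pool.N250.WMPLp
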