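import Mathlib
import Pool.Agent.N250.WMPLp.D

open MeasureTheory ProbabilityTheory Filter Topology
open scoped ENNReal NNReal

namespace Pool.N250.WMPLp

variable {𝕜 : Type*} [RCLike 𝕜]

variable (𝕜) in
/-- the Hilbert space `ℓ²(ℕ)` -/
abbrev H := lp (fun _ : ℕ => 𝕜) 2

lemma H_summable (x : H 𝕜) : Summable (fun i => ‖x i‖ ^ 2) := by
  have h := (lp.memℓp x).summable (by norm_num)
  simpa using h

lemma H_norm_sq (x : H 𝕜) : ‖x‖ ^ 2 = ∑' i, ‖x i‖ ^ 2 := by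
  have h := lp.norm_rpow_eq_tsum (p := 2) (by norm_num) x
  simpa using h

lemma H_norm (x : H 𝕜) : ‖x‖ = Real.sqrt (∑' i, ‖x i‖ ^ 2) := by
  rw [← H_norm_sq, Real.sqrt_sq (norm_nonneg _)]

section abstr
variable {Y Z : Type*} [NormedAddCommGroup Y] [NormedSpace 𝕜 Y] [CompleteSpace Y]
  [NormedAddCommGroup Z] [NormedSpace 𝕜 Z]

variable (𝕜) in
/-- the norm identity satisfied by the Gaussian system -/
def Kit (u : Y) (v : ℕ → Y) (o G : Z) : Prop :=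
  ∀ (a : 𝕜) (x : ℕ → 𝕜) (s : Finset ℕ), ‖a • u + ∑ i ∈ s, x i • v i‖
    = ‖a • o + ((Real.sqrt (∑ i ∈ s, ‖x i‖ ^ 2) : ℝ) : 𝕜) • G‖

variable {u : Y} {v : ℕ → Y} {o G : Z}

omit [CompleteSpace Y] in
lemma Kit.norm_sum (h : Kit 𝕜 u v o G) (x : ℕ → 𝕜) (s : Finset ℕ) :
    ‖∑ i ∈ s, x i • v i‖ = Real.sqrt (∑ i ∈ s, ‖x i‖ ^ 2) * ‖G‖ := by
  have := h 0 x s
  simp only [zero_smul, zero_add] at this
  rw [this, norm_smul, RCLike.norm_ofReal, abs_of_nonneg (Real.sqrt_nonneg _)]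

lemma Kit.summable (h : Kit 𝕜 u v o G) {x : ℕ → 𝕜} (hx : Summable (fun i => ‖x i‖ ^ 2)) :
    Summable (fun i => x i • v i) := by
  rw [summable_iff_vanishing_norm]
  intro ε hε
  have hG : 0 < ‖G‖ + 1 := by positivity
  obtain ⟨s, hs⟩ := summable_iff_vanishing_norm.1 hx ((ε / (‖G‖ + 1)) ^ 2) (by positivity)
  refine ⟨s, fun t ht => ?_⟩
  have h1 := hs t ht
  have h2 : 0 ≤ ∑ i ∈ t, ‖x i‖ ^ 2 := Finset.sum_nonneg (fun _ _ => by positivity)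
  rw [Real.norm_of_nonneg h2] at h1
  rw [h.norm_sum]
  have h3 : Real.sqrt (∑ i ∈ t, ‖x i‖ ^ 2) < ε / (‖G‖ + 1) := by
    rw [Real.sqrt_lt' (by positivity)]
    exact h1
  calc Real.sqrt (∑ i ∈ t, ‖x i‖ ^ 2) * ‖G‖
      ≤ Real.sqrt (∑ i ∈ t, ‖x i‖ ^ 2) * (‖G‖ + 1) := by
        gcongr
        linarith
    _ < ε / (‖G‖ + 1) * (‖G‖ + 1) := by
        gcongr
    _ = ε := by field_simp

lemma Kit.norm_tsum (h : Kit 𝕜 u v o G) (a : 𝕜) {x : ℕ → 𝕜}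
    (hx : Summable (fun i => ‖x i‖ ^ 2)) :
    ‖a • u + ∑' i, x i • v i‖
      = ‖a • o + ((Real.sqrt (∑' i, ‖x i‖ ^ 2) : ℝ) : 𝕜) • G‖ := by
  have h1 : Tendsto (fun s : Finset ℕ => ‖a • u + ∑ i ∈ s, x i • v i‖) atTop
      (𝓝 ‖a • u + ∑' i, x i • v i‖) :=
    ((h.summable hx).hasSum.const_add (a • u)).norm
  have h2 : Tendsto (fun s : Finset ℕ => ‖a • o + ((Real.sqrt (∑ i ∈ s, ‖x i‖ ^ 2) : ℝ) : 𝕜) • G‖)
      atTop (𝓝 ‖a • o + ((Real.sqrt (∑' i, ‖x i‖ ^ 2) : ℝ) : 𝕜) • G‖) := by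
    have hc : Continuous (fun t : ℝ => ‖a • o + ((Real.sqrt t : ℝ) : 𝕜) • G‖) := by
      have : Continuous (fun t : ℝ => ((Real.sqrt t : ℝ) : 𝕜)) :=
        RCLike.continuous_ofReal.comp Real.continuous_sqrt
      fun_prop
    exact (hc.tendsto _).comp hx.hasSum
  refine tendsto_nhds_unique h1 ?_
  convert h2 using 2
  exact h a x _

lemma sum_w {w : ℕ → ℝ} (hw : ∀ i, 0 ≤ w i ∧ w i ≤ 1) (x : H 𝕜) :
    Summable (fun i => ‖(w i : 𝕜) * x i‖ ^ 2) := by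
  refine Summable.of_nonneg_of_le (fun i => by positivity) (fun i => ?_) (H_summable x)
  rw [norm_mul, RCLike.norm_ofReal, abs_of_nonneg (hw i).1]
  have := norm_nonneg (x i)
  have h1 := (hw i).1
  have h2 := (hw i).2
  have : w i * ‖x i‖ ≤ ‖x i‖ := by nlinarith
  exact pow_le_pow_left₀ (by positivity) this 2

lemma tsum_w_le {w : ℕ → ℝ} (hw : ∀ i, 0 ≤ w i ∧ w i ≤ 1) (x : H 𝕜) :
    ∑' i, ‖(w i : 𝕜) * x i‖ ^ 2 ≤ ‖x‖ ^ 2 := by
  rw [H_norm_sq]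
  refine (sum_w hw x).tsum_le_tsum (fun i => ?_) (H_summable x)
  rw [norm_mul, RCLike.norm_ofReal, abs_of_nonneg (hw i).1]
  have := norm_nonneg (x i)
  have h1 := (hw i).1
  have h2 := (hw i).2
  have : w i * ‖x i‖ ≤ ‖x i‖ := by nlinarith
  exact pow_le_pow_left₀ (by positivity) this 2

/-- the weighted Gaussian operator -/
noncomputable def Kit.op (h : Kit 𝕜 u v o G) {w : ℕ → ℝ} (hw : ∀ i, 0 ≤ w i ∧ w i ≤ 1) :
    H 𝕜 →L[𝕜] Y :=
  LinearMap.mkContinuous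
    { toFun := fun x => ∑' i, ((w i : 𝕜) * x i) • v i
      map_add' := by
        intro x y
        rw [← (h.summable (sum_w hw x)).tsum_add (h.summable (sum_w hw y))]
        congr 1
        ext i
        simp only [lp.coeFn_add, Pi.add_apply]
        rw [mul_add, add_smul]
      map_smul' := by
        intro c x
        rw [RingHom.id_apply, ← (h.summable (sum_w hw x)).tsum_const_smul]
        congr 1
        ext i
        simp only [lp.coeFn_smul, Pi.smul_apply, smul_eq_mul]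
        rw [smul_smul]
        congr 1
        ring }
    ‖G‖ (by
      intro x
      simp only [LinearMap.coe_mk, AddHom.coe_mk]
      have h1 := h.norm_tsum 0 (sum_w hw x)
      simp only [zero_smul, zero_add] at h1
      rw [h1, norm_smul, RCLike.norm_ofReal, abs_of_nonneg (Real.sqrt_nonneg _), mul_comm]
      gcongr
      rw [Real.sqrt_le_left (norm_nonneg _)]
      exact tsum_w_le hw x)

lemma Kit.op_apply (h : Kit 𝕜 u v o G) {w : ℕ → ℝ} (hw : ∀ i, 0 ≤ w i ∧ w i ≤ 1) (x : H 𝕜) :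
    h.op hw x = ∑' i, ((w i : 𝕜) * x i) • v i := rfl

lemma Kit.norm_op (h : Kit 𝕜 u v o G) {w : ℕ → ℝ} (hw : ∀ i, 0 ≤ w i ∧ w i ≤ 1) (a : 𝕜)
    (x : H 𝕜) :
    ‖a • u + h.op hw x‖ = ‖a • o + ((Real.sqrt (∑' i, ‖(w i : 𝕜) * x i‖ ^ 2) : ℝ) : 𝕜) • G‖ := by
  rw [h.op_apply]
  exact h.norm_tsum a (sum_w hw x)

/-- weights tending to `1` from below, vanishing at `0` -/
noncomputable def wt (i : ℕ) : ℝ := i / (i + 1)

lemma wt_mem (i : ℕ) : 0 ≤ wt i ∧ wt i ≤ 1 := by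
  unfold wt
  constructor
  · positivity
  · rw [div_le_one (by positivity)]
    linarith

lemma wt_lt (i : ℕ) : wt i < 1 := by
  unfold wt
  rw [div_lt_one (by positivity)]
  linarith

lemma wt_zero : wt 0 = 0 := by simp [wt]

lemma wt_tendsto : Tendsto wt atTop (𝓝 1) := by
  unfold wt
  exact tendsto_natCast_div_add_atTop (1 : ℝ)

/-- coordinate functional at `0` -/
noncomputable def c0 : H 𝕜 →L[𝕜] 𝕜 :=
  LinearMap.mkContinuous
    { toFun := fun x => x 0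
      map_add' := fun x y => by simp
      map_smul' := fun c x => by simp } 1 (by
      intro x
      rw [one_mul]
      exact lp.norm_apply_le_norm (by norm_num) x 0)

lemma c0_apply (x : H 𝕜) : c0 x = x 0 := rfl

/-- The operator `S`. -/
noncomputable def Kit.S (h : Kit 𝕜 u v o G) (K : ℝ) : H 𝕜 →L[𝕜] Y :=
  (c0.smulRight ((K : 𝕜) • u)) + h.op wt_mem

lemma Kit.S_apply (h : Kit 𝕜 u v o G) (K : ℝ) (x : H 𝕜) :
    h.S K x = ((K : 𝕜) * x 0) • u + h.op wt_mem x := by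
  simp only [Kit.S, add_apply, ContinuousLinearMap.smulRight_apply, c0_apply,
    smul_smul]
  rw [mul_comm]

lemma tsum_split (x : H 𝕜) : ‖x‖ ^ 2 = ‖x 0‖ ^ 2 + ∑' i, ‖x (i + 1)‖ ^ 2 := by
  rw [H_norm_sq, (H_summable x).tsum_eq_zero_add]

lemma tsum_wt_split (x : H 𝕜) : ∑' i, ‖(wt i : 𝕜) * x i‖ ^ 2
    = ∑' i, ‖(wt (i + 1) : 𝕜) * x (i + 1)‖ ^ 2 := by
  rw [(sum_w wt_mem x).tsum_eq_zero_add, wt_zero]
  simp

/-- the maximizing sequence -/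
noncomputable def xs (a b : 𝕜) (n : ℕ) : H 𝕜 :=
  lp.single (E := fun _ : ℕ => 𝕜) 2 0 a + lp.single (E := fun _ : ℕ => 𝕜) 2 (n + 1) b

lemma xs_zero (a b : 𝕜) (n : ℕ) : xs a b n 0 = a := by
  simp [xs, lp.single_apply]

lemma xs_succ (a b : 𝕜) (n i : ℕ) : xs a b n (i + 1) = if i = n then b else 0 := by
  rcases eq_or_ne i n with rfl | h
  · simp [xs, lp.single_apply]
  · have h' : i + 1 ≠ n + 1 := by omega
    simp [xs, lp.single_apply, h]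

lemma xs_norm (a b : 𝕜) (n : ℕ) : ‖xs a b n‖ ^ 2 = ‖a‖ ^ 2 + ‖b‖ ^ 2 := by
  rw [tsum_split, xs_zero]
  congr 1
  simp_rw [xs_succ]
  rw [tsum_eq_single n]
  · simp
  · intro i hi
    simp [hi]

lemma xs_tsum (a b : 𝕜) (n : ℕ) : ∑' i, ‖(wt i : 𝕜) * xs a b n i‖ ^ 2 = (wt (n + 1) * ‖b‖) ^ 2 := by
  rw [tsum_wt_split]
  simp_rw [xs_succ]
  rw [tsum_eq_single n]
  · simp [abs_of_nonneg (wt_mem _).1]
  · intro i hi
    simp [hi]

lemma Kit.main (h : Kit 𝕜 u v o G) {K M : ℝ} {a b : 𝕜} (hK : 0 < K) (hKM : K < M)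
    (hoG : ‖o‖ = 1) (hGK : ‖G‖ = K)
    (hab : ‖a‖ ^ 2 + ‖b‖ ^ 2 = 1) (hM : ‖((K : 𝕜) * a) • o + b • G‖ = M)
    (habs : ∀ a b c : 𝕜, ‖b‖ = ‖c‖ → ‖a • o + b • G‖ = ‖a • o + c • G‖)
    (hle : ∀ x y : 𝕜, ‖((K : 𝕜) * x) • o + y • G‖ ≤ M * Real.sqrt (‖x‖ ^ 2 + ‖y‖ ^ 2)) :
    ∃ (x : ℕ → H 𝕜), a ≠ 0 ∧ (∀ y, ‖h.S K y‖ ≤ M * ‖y‖) ∧ (∀ y, y ≠ 0 → ‖h.S K y‖ < M * ‖y‖) ∧
      (∀ n, ‖x n‖ = 1) ∧ Tendsto (fun n => ‖h.S K (x n)‖) atTop (𝓝 M) ∧ ∀ n, x n 0 = a := by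
  classical
  have hM0 : 0 < M := hK.trans hKM
  have hnorm : ∀ y : H 𝕜, ‖h.S K y‖ ≤ M * Real.sqrt (‖y 0‖ ^ 2 +
      ∑' i, ‖(wt (i + 1) : 𝕜) * y (i + 1)‖ ^ 2) := by
    intro y
    rw [h.S_apply, h.norm_op]
    refine (hle _ _).trans ?_
    rw [RCLike.norm_ofReal, sq_abs, Real.sq_sqrt (tsum_nonneg (fun i => by positivity)),
      tsum_wt_split]
  have hsum1 : ∀ y : H 𝕜, Summable (fun i => ‖y (i + 1)‖ ^ 2) := fun y =>
    (summable_nat_add_iff 1).2 (H_summable y)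
  have hsum2 : ∀ y : H 𝕜, Summable (fun i => ‖(wt (i + 1) : 𝕜) * y (i + 1)‖ ^ 2) := fun y =>
    (summable_nat_add_iff 1).2 (sum_w wt_mem y)
  have hpt : ∀ (y : H 𝕜) (i : ℕ), ‖(wt (i + 1) : 𝕜) * y (i + 1)‖ ^ 2 ≤ ‖y (i + 1)‖ ^ 2 := by
    intro y i
    rw [norm_mul, RCLike.norm_ofReal, abs_of_nonneg (wt_mem _).1]
    have := norm_nonneg (y (i + 1))
    have h1 := (wt_mem (i + 1)).1
    have h2 := (wt_mem (i + 1)).2
    have : wt (i + 1) * ‖y (i + 1)‖ ≤ ‖y (i + 1)‖ := by nlinarith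
    exact pow_le_pow_left₀ (by positivity) this 2
  have hstrict : ∀ y : H 𝕜, y ≠ 0 → ‖h.S K y‖ < M * ‖y‖ := by
    intro y hy
    by_cases hz : ∃ i, y (i + 1) ≠ 0
    · obtain ⟨i, hi⟩ := hz
      refine lt_of_le_of_lt (hnorm y) ?_
      apply mul_lt_mul_of_pos_left _ hM0
      rw [Real.sqrt_lt' (norm_pos_iff.2 hy), tsum_split]
      have : ∑' i, ‖(wt (i + 1) : 𝕜) * y (i + 1)‖ ^ 2 < ∑' i, ‖y (i + 1)‖ ^ 2 := by
        refine Summable.tsum_lt_tsum (i := i) (hpt y) ?_ (hsum2 y) (hsum1 y)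
        rw [norm_mul, RCLike.norm_ofReal, abs_of_nonneg (wt_mem _).1]
        have h3 : 0 < ‖y (i + 1)‖ := norm_pos_iff.2 hi
        have h4 := wt_lt (i + 1)
        have h5 := (wt_mem (i + 1)).1
        have h6 : wt (i + 1) * ‖y (i + 1)‖ < ‖y (i + 1)‖ := by nlinarith
        exact pow_lt_pow_left₀ h6 (by positivity) (by norm_num)
      linarith
    · push Not at hz
      have h1 : ‖y‖ ^ 2 = ‖y 0‖ ^ 2 := by
        rw [tsum_split]
        simp [hz]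
      have h2 : ‖y‖ = ‖y 0‖ := by
        rwa [sq_eq_sq₀ (norm_nonneg _) (norm_nonneg _)] at h1
      rw [h.S_apply, h.norm_op, tsum_wt_split]
      simp only [hz, mul_zero, norm_zero, ne_eq, OfNat.ofNat_ne_zero, not_false_eq_true, zero_pow,
        tsum_zero, Real.sqrt_zero, RCLike.ofReal_zero, zero_smul, add_zero]
      rw [norm_smul, hoG, mul_one, norm_mul, RCLike.norm_ofReal, abs_of_pos hK, ← h2]
      exact mul_lt_mul_of_pos_right hKM (norm_pos_iff.2 hy)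
  have ha : a ≠ 0 := by
    intro ha
    rw [ha] at hab hM
    simp only [norm_zero, ne_eq, OfNat.ofNat_ne_zero, not_false_eq_true, zero_pow, zero_add,
      mul_zero, zero_smul] at hab hM
    have hb : ‖b‖ = 1 := by
      have := norm_nonneg b
      nlinarith
    rw [norm_smul, hb, one_mul, hGK] at hM
    linarith
  refine ⟨xs a b, ha, ?_, hstrict, ?_, ?_, xs_zero a b⟩
  · intro y
    rcases eq_or_ne y 0 with rfl | hy
    · simp
    · exact (hstrict y hy).le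
  · intro n
    have h1 := xs_norm a b n
    rw [hab] at h1
    have := norm_nonneg (xs a b n)
    nlinarith
  · have h1 : ∀ n, ‖h.S K (xs a b n)‖
        = ‖((K : 𝕜) * a) • o + ((wt (n + 1) * ‖b‖ : ℝ) : 𝕜) • G‖ := by
      intro n
      rw [h.S_apply, h.norm_op, xs_tsum, xs_zero, Real.sqrt_sq]
      exact mul_nonneg (wt_mem _).1 (norm_nonneg _)
    simp_rw [h1]
    have h2 : M = ‖((K : 𝕜) * a) • o + ((1 * ‖b‖ : ℝ) : 𝕜) • G‖ := by
      rw [← hM]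
      apply habs
      simp
    rw [h2]
    have hc : Continuous (fun t : ℝ => ‖((K : 𝕜) * a) • o + ((t * ‖b‖ : ℝ) : 𝕜) • G‖) := by
      have : Continuous (fun t : ℝ => ((t * ‖b‖ : ℝ) : 𝕜)) :=
        RCLike.continuous_ofReal.comp (by fun_prop)
      fun_prop
    exact (hc.tendsto 1).comp (wt_tendsto.comp (tendsto_add_atTop_nat 1))

end abstr

end Pool.N250.WMPLp
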