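import Mathlib
import Pool.Agent.N250.WMPLp.E

open MeasureTheory ProbabilityTheory Filter Topology
open scoped ENNReal NNReal

namespace Pool.N250.WMPLp

variable {𝕜 : Type*} [RCLike 𝕜]

section dual
variable {α : Type*} [MeasurableSpace α] {μ : Measure α} {p p' : ℝ≥0∞}
  [Fact (1 ≤ p)] [Fact (1 ≤ p')] [ENNReal.HolderConjugate p p']

variable (𝕜 μ p p') in
/-- the bilinear pairing `∫ y g` -/
noncomputable def pair : Lp 𝕜 p μ →L[𝕜] Lp 𝕜 p' μ →L[𝕜] 𝕜 :=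
  (ContinuousLinearMap.mul 𝕜 𝕜).lpPairing μ p p'

lemma pair_eq (y : Lp 𝕜 p μ) (g : Lp 𝕜 p' μ) : pair 𝕜 μ p p' y g = ∫ t, y t * g t ∂μ := by
  rw [pair, ContinuousLinearMap.lpPairing_eq_integral]
  rfl

lemma pair_le (y : Lp 𝕜 p μ) (g : Lp 𝕜 p' μ) : ‖pair 𝕜 μ p p' y g‖ ≤ ‖y‖ * ‖g‖ := by
  have h1 : pair 𝕜 μ p p' y g = L1.integral ((ContinuousLinearMap.mul 𝕜 𝕜).holder 1 y g) := by
    rw [pair_eq, L1.integral_eq_integral]
    apply integral_congr_ae
    filter_upwards [(ContinuousLinearMap.mul 𝕜 𝕜).coeFn_holder (r := 1) y g] with t ht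
    rw [ht]
    rfl
  rw [h1]
  refine (L1.norm_integral_le _).trans ?_
  refine ((ContinuousLinearMap.mul 𝕜 𝕜).norm_holder_apply_apply_le y g).trans ?_
  have := ContinuousLinearMap.opNorm_mul_le 𝕜 𝕜
  have h2 := norm_nonneg y
  have h3 := norm_nonneg g
  calc ‖ContinuousLinearMap.mul 𝕜 𝕜‖ * ‖y‖ * ‖g‖ ≤ 1 * ‖y‖ * ‖g‖ := by gcongr
    _ = ‖y‖ * ‖g‖ := by ring

/-- norming functions -/
lemma exists_norming (hp1 : 1 < p) (hpt : p ≠ ∞) (hp't : p' ≠ ∞) (hp'1 : 1 < p')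
    (g : Lp 𝕜 p' μ) (hg : g ≠ 0) :
    ∃ y : Lp 𝕜 p μ, ‖y‖ = 1 ∧ pair 𝕜 μ p p' y g = (‖g‖ : 𝕜) := by
  have hp0 : p ≠ 0 := (lt_trans zero_lt_one hp1).ne'
  have hp'0 : p' ≠ 0 := (lt_trans zero_lt_one hp'1).ne'
  set t := p.toReal with ht
  set s := p'.toReal with hs
  have hconj : t.HolderConjugate s := ENNReal.HolderConjugate.toReal_of_ne_top hpt hp't
  have ht0 : 0 < t := hconj.pos
  have hs0 : 0 < s := hconj.symm.pos
  have hs1 : 1 < s := hconj.symm.lt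
  have hst : (s - 1) * t = s := hconj.symm.sub_one_mul_conj
  have hgm : MemLp g p' μ := Lp.memLp g
  -- the unnormalized function
  set y0 : α → 𝕜 := fun ω => (starRingEnd 𝕜) (g ω) * ((‖g ω‖ ^ (s - 2) : ℝ) : 𝕜) with hy0
  have hy0n : ∀ ω, ‖y0 ω‖ = ‖g ω‖ ^ (s - 1) := by
    intro ω
    simp only [hy0, norm_mul, RCLike.norm_conj, RCLike.norm_ofReal]
    rw [abs_of_nonneg (by positivity)]
    rcases eq_or_ne (g ω) 0 with h0 | h0
    · rw [h0, norm_zero, zero_mul, Real.zero_rpow (by linarith)]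
    · have : 0 < ‖g ω‖ := norm_pos_iff.2 h0
      rw [← Real.rpow_one_add' (by positivity) (by linarith)]
      congr 1
      ring
  have hy0n' : ∀ ω, ‖y0 ω‖ ^ t = ‖g ω‖ ^ s := by
    intro ω
    rw [hy0n, ← Real.rpow_mul (norm_nonneg _), hst]
  have hy0g : ∀ ω, y0 ω * g ω = ((‖g ω‖ ^ s : ℝ) : 𝕜) := by
    intro ω
    simp only [hy0]
    rw [mul_right_comm, RCLike.conj_mul]
    rcases eq_or_ne (g ω) 0 with h0 | h0
    · rw [h0, norm_zero, Real.zero_rpow hs0.ne']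
      simp
    · have : 0 < ‖g ω‖ := norm_pos_iff.2 h0
      rw [← RCLike.ofReal_pow, ← RCLike.ofReal_mul]
      congr 1
      rw [← Real.rpow_natCast, ← Real.rpow_add this]
      congr 1
      push_cast
      ring
  have hy0meas : AEStronglyMeasurable y0 μ := by
    have h1 := hgm.1
    have h2 : AEStronglyMeasurable (fun ω => (starRingEnd 𝕜) (g ω)) μ :=
      RCLike.continuous_conj.comp_aestronglyMeasurable h1
    have h3 : AEMeasurable (fun ω => ‖g ω‖ ^ (s - 2)) μ := h1.norm.aemeasurable.pow_const _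
    have h4 : AEStronglyMeasurable (fun ω => ((‖g ω‖ ^ (s - 2) : ℝ) : 𝕜)) μ :=
      RCLike.continuous_ofReal.comp_aestronglyMeasurable h3.aestronglyMeasurable
    exact h2.mul h4
  have hint : Integrable (fun ω => ‖g ω‖ ^ s) μ := hgm.integrable_norm_rpow hp'0 hp't
  have hy0m : MemLp y0 p μ := by
    rw [← integrable_norm_rpow_iff hy0meas hp0 hpt]
    simp only [← ht]
    simpa only [hy0n'] using hint
  set J : ℝ := ∫ ω, ‖g ω‖ ^ s ∂μ with hJ
  have hJ0 : 0 ≤ J := integral_nonneg (fun ω => by positivity)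
  have hgnorm : ‖g‖ = J ^ (s⁻¹) := by
    rw [Lp.norm_def, hgm.eLpNorm_eq_integral_rpow_norm hp'0 hp't,
      ENNReal.toReal_ofReal (by positivity)]
  have hJpos : 0 < J := by
    rcases eq_or_lt_of_le hJ0 with h0 | h0
    · exfalso
      rw [← h0, Real.zero_rpow (inv_ne_zero hs0.ne')] at hgnorm
      exact hg (norm_eq_zero.1 hgnorm)
    · exact h0
  have hy0norm : ‖hy0m.toLp y0‖ = J ^ (t⁻¹) := by
    rw [Lp.norm_toLp, hy0m.eLpNorm_eq_integral_rpow_norm hp0 hpt,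
      ENNReal.toReal_ofReal (by positivity)]
    simp only [← ht, hy0n', hJ]
  refine ⟨((J ^ (-t⁻¹) : ℝ) : 𝕜) • hy0m.toLp y0, ?_, ?_⟩
  · rw [norm_smul, hy0norm, RCLike.norm_ofReal, abs_of_nonneg (by positivity),
      ← Real.rpow_add hJpos]
    simp
  · rw [map_smul, ContinuousLinearMap.smul_apply, pair_eq]
    have h1 : ∫ ω, (hy0m.toLp y0) ω * g ω ∂μ = (J : 𝕜) := by
      have h2 : ∫ ω, (hy0m.toLp y0) ω * g ω ∂μ = ∫ ω, ((‖g ω‖ ^ s : ℝ) : 𝕜) ∂μ := by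
        apply integral_congr_ae
        filter_upwards [hy0m.coeFn_toLp] with ω hω
        rw [hω, hy0g]
      rw [h2, integral_ofReal]
    rw [h1, smul_eq_mul, ← RCLike.ofReal_mul]
    congr 1
    rw [hgnorm]
    nth_rewrite 2 [← Real.rpow_one J]
    rw [← Real.rpow_add hJpos]
    congr 1
    have := hconj.inv_add_inv_eq_one
    linarith

/-- the Banach space transpose of `A : ℓ² → L^{p'}` as an operator `L^p → ℓ²` -/
noncomputable def transp (A : H 𝕜 →L[𝕜] Lp 𝕜 p' μ) : Lp 𝕜 p μ →L[𝕜] H 𝕜 :=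
  LinearMap.mkContinuous
    { toFun := fun y => star ((InnerProductSpace.toDual 𝕜 (H 𝕜)).symm ((pair 𝕜 μ p p' y).comp A))
      map_add' := by
        intro x y
        rw [map_add, ContinuousLinearMap.add_comp, map_add, star_add]
      map_smul' := by
        intro c x
        rw [map_smul, ContinuousLinearMap.smul_comp, LinearIsometryEquiv.map_smulₛₗ, star_smul]
        simp }
    ‖A‖ (by
      intro x
      simp only [LinearMap.coe_mk, AddHom.coe_mk]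
      rw [norm_star, LinearIsometryEquiv.norm_map]
      refine ContinuousLinearMap.opNorm_le_bound _ (by positivity) (fun y => ?_)
      refine (pair_le x (A y)).trans ?_
      have := A.le_opNorm y
      calc ‖x‖ * ‖A y‖ ≤ ‖x‖ * (‖A‖ * ‖y‖) := by gcongr
        _ = ‖A‖ * ‖x‖ * ‖y‖ := by ring)

/-- the bilinear dot product on `ℓ²` -/
noncomputable def dot (w x : H 𝕜) : 𝕜 := inner 𝕜 (star w) x

lemma dot_le (w x : H 𝕜) : ‖dot w x‖ ≤ ‖w‖ * ‖x‖ := by
  have := norm_inner_le_norm (𝕜 := 𝕜) (star w) x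
  rwa [norm_star] at this

lemma dot_transp (A : H 𝕜 →L[𝕜] Lp 𝕜 p' μ) (y : Lp 𝕜 p μ) (x : H 𝕜) :
    dot (transp (p := p) A y) x = pair 𝕜 μ p p' y (A x) := by
  change inner 𝕜 (star (star ((InnerProductSpace.toDual 𝕜 (H 𝕜)).symm
    ((pair 𝕜 μ p p' y).comp A)))) x = _
  rw [star_star, InnerProductSpace.toDual_symm_apply]
  rfl

lemma norm_sub_star_sq (w x : H 𝕜) (c : ℝ) :
    ‖w - (c : 𝕜) • star x‖ ^ 2 = ‖w‖ ^ 2 - 2 * c * RCLike.re (dot w x) + c ^ 2 * ‖x‖ ^ 2 := by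
  have h1 : ‖w - (c : 𝕜) • star x‖ = ‖star w - (c : 𝕜) • x‖ := by
    rw [← norm_star (w - (c : 𝕜) • star x), star_sub, star_smul, star_star]
    simp
  rw [h1, norm_sub_sq (𝕜 := 𝕜), norm_star, norm_smul, inner_smul_right, RCLike.norm_ofReal,
    RCLike.re_ofReal_mul, mul_pow, sq_abs]
  rw [dot]
  ring

end dual

end Pool.N250.WMPLp
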