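import Mathlib
import Pool.Agent.N250.WMPLp.F

open MeasureTheory ProbabilityTheory Filter Topology
open scoped ENNReal NNReal

namespace Pool.N250.WMPLp

variable {𝕜 : Type*} [RCLike 𝕜]

lemma exists_kit (q : ℝ≥0∞) [Fact (1 ≤ q)] (hq : q ≠ ∞) :
    ∃ (u : Lp 𝕜 q lam) (v : ℕ → Lp 𝕜 q lam), Kit 𝕜 u v (oneZ 𝕜 q) (GZ 𝕜 hq) := by
  obtain ⟨g, hg, hlaw, hind⟩ := exists_iid (𝕜 := 𝕜)
  have hmem : ∀ n, MemLp (g n) q lam := by
    intro n
    have h1 : MemLp id q (lam.map (g n)) := by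
      rw [hlaw n]
      exact IsGaussian.memLp_id (stdGaussian 𝕜) q hq
    exact (memLp_map_measure_iff aestronglyMeasurable_id (hg n).aemeasurable).1 h1
  exact ⟨_, _, fun a x s => norm_comb_sum hq hg hlaw hind hmem a x s⟩

/-- the operator `S : ℓ² → L^q`, `q > 2` -/
lemma exists_S (q : ℝ≥0∞) [Fact (1 ≤ q)] (hq2 : 2 < q) (hq : q ≠ ∞) :
    ∃ (S : H 𝕜 →L[𝕜] Lp 𝕜 q lam) (M : ℝ) (x : ℕ → H 𝕜) (a : 𝕜), 0 < M ∧ a ≠ 0 ∧
      (∀ y, ‖S y‖ ≤ M * ‖y‖) ∧ (∀ y, y ≠ 0 → ‖S y‖ < M * ‖y‖) ∧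
      (∀ n, ‖x n‖ = 1) ∧ Tendsto (fun n => ‖S (x n)‖) atTop (𝓝 M) ∧ ∀ n, x n 0 = a := by
  have hq0 : q ≠ 0 := (lt_trans (by norm_num) hq2).ne'
  have hr : 0 < q.toReal := ENNReal.toReal_pos hq0 hq
  obtain ⟨u, v, hkit⟩ := exists_kit (𝕜 := 𝕜) q hq
  obtain ⟨M, a, b, hKM, hab, hM, hle⟩ := extremal (𝕜 := 𝕜) hq2 hq
  have hK := KK_pos (𝕜 := 𝕜) hr
  obtain ⟨x, h1, h2, h3, h4, h5, h6⟩ := hkit.main hK hKM (norm_oneZ hq0) (norm_GZ hq0 hq) hab hM
    (fun a b c h => norm_comb_abs hq a b c h) hle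
  exact ⟨hkit.S (KK 𝕜 q.toReal), M, x, a, hK.trans hKM, h1, h2, h3, h4, h5, h6⟩

/-- isometric embedding of `ℓ²` -/
lemma exists_J (q : ℝ≥0∞) [Fact (1 ≤ q)] (hq : q ≠ ∞) :
    ∃ J : H 𝕜 →L[𝕜] Lp 𝕜 q lam, ∀ x, ‖J x‖ = ‖x‖ := by
  have hq0 : q ≠ 0 := (lt_of_lt_of_le zero_lt_one (Fact.out : 1 ≤ q)).ne'
  have hr : 0 < q.toReal := ENNReal.toReal_pos hq0 hq
  obtain ⟨u, v, hkit⟩ := exists_kit (𝕜 := 𝕜) q hq
  have hw : ∀ i : ℕ, 0 ≤ (fun _ : ℕ => (1 : ℝ)) i ∧ (fun _ : ℕ => (1 : ℝ)) i ≤ 1 := fun i => by simp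
  have hK := KK_pos (𝕜 := 𝕜) hr
  refine ⟨(((KK 𝕜 q.toReal)⁻¹ : ℝ) : 𝕜) • hkit.op hw, fun x => ?_⟩
  have h1 := hkit.norm_op hw 0 x
  simp only [zero_smul, zero_add, RCLike.ofReal_one, one_mul] at h1
  rw [smul_apply, norm_smul, h1, norm_smul, norm_GZ hq0 hq, ← H_norm,
    RCLike.norm_ofReal, RCLike.norm_ofReal, abs_of_nonneg (norm_nonneg _),
    abs_of_pos (inv_pos.2 hK)]
  field_simp

section assembly
variable {p q : ℝ≥0∞} [Fact (1 ≤ p)] [Fact (1 ≤ q)]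

/-- The conclusion: an operator of norm `M` with a non weakly null maximizing sequence which does
not attain its norm. -/
def Bad (𝕜 : Type*) [RCLike 𝕜] (E F : Type*) [NormedAddCommGroup E] [NormedSpace 𝕜 E]
    [NormedAddCommGroup F] [NormedSpace 𝕜 F] : Prop :=
  ∃ (T : E →L[𝕜] F) (y : ℕ → E) (φ : StrongDual 𝕜 E), (∀ n, ‖y n‖ = 1) ∧
    Tendsto (fun n => ‖T (y n)‖) atTop (𝓝 ‖T‖) ∧
    (¬ Tendsto (fun n => φ (y n)) atTop (𝓝 0)) ∧ ∀ z : E, ‖z‖ = 1 → ‖T z‖ ≠ ‖T‖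

lemma norm_eq_of {E F : Type*} [NormedAddCommGroup E] [NormedSpace 𝕜 E]
    [NormedAddCommGroup F] [NormedSpace 𝕜 F] (T : E →L[𝕜] F) (M : ℝ) (hM : 0 ≤ M)
    (h : ∀ y, ‖T y‖ ≤ M * ‖y‖) (y : ℕ → E) (hy : ∀ n, ‖y n‖ = 1)
    (hlim : Tendsto (fun n => ‖T (y n)‖) atTop (𝓝 M)) : ‖T‖ = M := by
  apply le_antisymm (T.opNorm_le_bound hM h)
  refine le_of_tendsto' hlim (fun n => ?_)
  have := T.le_opNorm (y n)
  rwa [hy n, mul_one] at this

lemma transp_le {p' : ℝ≥0∞} [Fact (1 ≤ p')] [ENNReal.HolderConjugate p p']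
    (A : H 𝕜 →L[𝕜] Lp 𝕜 p' lam) (M : ℝ) (hM : 0 ≤ M) (hA : ∀ x, ‖A x‖ ≤ M * ‖x‖)
    (y : Lp 𝕜 p lam) : ‖transp (p := p) A y‖ ≤ M * ‖y‖ := by
  refine ((transp (p := p) A).le_opNorm y).trans ?_
  have h1 : ‖transp (p := p) A‖ ≤ ‖A‖ := LinearMap.mkContinuous_norm_le _ (norm_nonneg _) _
  have h2 : ‖A‖ ≤ M := A.opNorm_le_bound hM hA
  have := norm_nonneg y
  nlinarith

lemma conj_facts (hp1 : 1 < p) (hpt : p ≠ ∞) : ∃ (p' : ℝ≥0∞) (_ : Fact (1 ≤ p'))
    (_ : ENNReal.HolderConjugate p p'), 1 < p' ∧ p' ≠ ∞ ∧ (p < 2 → 2 < p') := by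
  have hc : ENNReal.HolderConjugate p (ENNReal.conjExponent p) := inferInstance
  have hc2 : ENNReal.HolderConjugate (ENNReal.conjExponent p) p := inferInstance
  have h1 : 1 < ENNReal.conjExponent p := by
    exact (ENNReal.HolderConjugate.lt_top_iff_one_lt p (ENNReal.conjExponent p)).1
      (lt_top_iff_ne_top.2 hpt)
  have h2 : ENNReal.conjExponent p ≠ ∞ := by
    exact (ENNReal.HolderConjugate.ne_top_iff_ne_one (ENNReal.conjExponent p) p).2 hp1.ne'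
  refine ⟨ENNReal.conjExponent p, ⟨h1.le⟩, hc, h1, h2, fun h => ?_⟩
  have h3 : (p.toReal).HolderConjugate (ENNReal.conjExponent p).toReal :=
    ENNReal.HolderConjugate.toReal_of_ne_top hpt h2
  have h4 : p.toReal < 2 := by
    have := (ENNReal.toReal_lt_toReal hpt (by norm_num)).2 h
    simpa using this
  have h5 := h3.inv_add_inv_eq_one
  have h6 : 0 < p.toReal := h3.pos
  have h7 : 0 < (ENNReal.conjExponent p).toReal := h3.symm.pos
  have h8 : (2 : ℝ) < (ENNReal.conjExponent p).toReal := by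
    field_simp at h5
    nlinarith
  have h9 : (2 : ℝ≥0∞).toReal < (ENNReal.conjExponent p).toReal := by simpa using h8
  exact (ENNReal.toReal_lt_toReal (by norm_num) h2).1 h9

lemma caseA (hp1 : 1 < p) (hpt : p ≠ ∞) (hq2 : 2 < q) (hqt : q ≠ ∞) :
    Bad 𝕜 (Lp 𝕜 p lam) (Lp 𝕜 q lam) := by
  obtain ⟨p', hf, hc, hp'1, hp't, -⟩ := conj_facts hp1 hpt
  obtain ⟨S, M, x, a, hM, ha, hle, hlt, hx1, hxlim, hx0⟩ := exists_S (𝕜 := 𝕜) q hq2 hqt
  obtain ⟨J, hJ⟩ := exists_J (𝕜 := 𝕜) p' hp't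
  have hQ : ∀ y : Lp 𝕜 p lam, ‖transp (p := p) J y‖ ≤ ‖y‖ := by
    intro y
    have := transp_le (p := p) J 1 zero_le_one (fun x => by rw [hJ, one_mul]) y
    rwa [one_mul] at this
  have hex : ∀ n, ∃ y : Lp 𝕜 p lam, ‖y‖ = 1 ∧ transp (p := p) J y = x n := by
    intro n
    have hs1 : ‖star (x n)‖ = 1 := by rw [norm_star, hx1]
    have hJ1 : ‖J (star (x n))‖ = 1 := by rw [hJ, hs1]
    obtain ⟨y, hy1, hy2⟩ := exists_norming (p := p) (μ := lam) hp1 hpt hp't hp'1 (J (star (x n)))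
      (by rw [← norm_ne_zero_iff, hJ1]; exact one_ne_zero)
    refine ⟨y, hy1, ?_⟩
    have h1 : dot (transp (p := p) J y) (star (x n)) = 1 := by
      rw [dot_transp, hy2, hJ1, RCLike.ofReal_one]
    have h2 := norm_sub_star_sq (transp (p := p) J y) (star (x n)) 1
    rw [h1, hs1, star_star, RCLike.ofReal_one, one_smul, RCLike.one_re] at h2
    have h3 := hQ y
    rw [hy1] at h3
    have h4 := norm_nonneg (transp (p := p) J y)
    have h5 : ‖transp (p := p) J y - x n‖ = 0 := by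
      have h6 := norm_nonneg (transp (p := p) J y - x n)
      nlinarith
    rwa [norm_sub_eq_zero_iff] at h5
  choose y hy1 hy2 using hex
  have hTle : ∀ z, ‖(S.comp (transp (p := p) J)) z‖ ≤ M * ‖z‖ := by
    intro z
    rw [ContinuousLinearMap.comp_apply]
    refine (hle _).trans ?_
    have := hQ z
    gcongr
  have hTlim : Tendsto (fun n => ‖(S.comp (transp (p := p) J)) (y n)‖) atTop (𝓝 M) := by
    simpa only [ContinuousLinearMap.comp_apply, hy2] using hxlim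
  have hTn : ‖S.comp (transp (p := p) J)‖ = M := norm_eq_of _ M hM.le hTle y hy1 hTlim
  refine ⟨S.comp (transp (p := p) J), y, c0.comp (transp (p := p) J), hy1, ?_, ?_, ?_⟩
  · rw [hTn]
    exact hTlim
  · intro h
    have h1 : ∀ n, (c0.comp (transp (p := p) J)) (y n) = a := by
      intro n
      rw [ContinuousLinearMap.comp_apply, hy2, c0_apply, hx0]
    simp only [h1] at h
    exact ha (tendsto_nhds_unique tendsto_const_nhds h)
  · intro z hz h
    rw [hTn, ContinuousLinearMap.comp_apply] at h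
    rcases eq_or_ne (transp (p := p) J z) 0 with h0 | h0
    · rw [h0, map_zero, norm_zero] at h
      exact hM.ne h
    · have h1 := hlt _ h0
      have h2 := hQ z
      rw [hz] at h2
      rw [h] at h1
      nlinarith

lemma exists_norming' {p' : ℝ≥0∞} [Fact (1 ≤ p')] [ENNReal.HolderConjugate p p']
    (hp1 : 1 < p) (hpt : p ≠ ∞) (hp't : p' ≠ ∞) (hp'1 : 1 < p') (g : Lp 𝕜 p' lam) :
    ∃ y : Lp 𝕜 p lam, ‖y‖ = 1 ∧ pair 𝕜 lam p p' y g = (‖g‖ : 𝕜) := by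
  rcases eq_or_ne g 0 with rfl | hg
  · refine ⟨(memLp_const (1 : 𝕜)).toLp (fun _ => (1 : 𝕜)), ?_, ?_⟩
    · rw [Lp.norm_toLp, eLpNorm_const _ (lt_trans zero_lt_one hp1).ne'
        (IsProbabilityMeasure.ne_zero _)]
      simp
    · rw [map_zero, norm_zero, RCLike.ofReal_zero]
  · exact exists_norming hp1 hpt hp't hp'1 g hg

lemma caseB (hp1 : 1 < p) (hp2 : p < 2) (hqt : q ≠ ∞) :
    Bad 𝕜 (Lp 𝕜 p lam) (Lp 𝕜 q lam) := by
  have hpt : p ≠ ∞ := ne_top_of_lt hp2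
  obtain ⟨p', hf, hc, hp'1, hp't, hp'2⟩ := conj_facts hp1 hpt
  obtain ⟨S, M, x, a, hM, ha, hle, hlt, hx1, hxlim, hx0⟩ := exists_S (𝕜 := 𝕜) p' (hp'2 hp2) hp't
  obtain ⟨J, hJ⟩ := exists_J (𝕜 := 𝕜) q hqt
  choose y hy1 hy2 using fun n => exists_norming' (p := p) hp1 hpt hp't hp'1 (S (x n))
  have hW : ∀ z : Lp 𝕜 p lam, ‖transp (p := p) S z‖ ≤ M * ‖z‖ :=
    fun z => transp_le (p := p) S M hM.le hle z
  have hTle : ∀ z, ‖(J.comp (transp (p := p) S)) z‖ ≤ M * ‖z‖ := by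
    intro z
    rw [ContinuousLinearMap.comp_apply, hJ]
    exact hW z
  have hdot : ∀ n, dot (transp (p := p) S (y n)) (x n) = (‖S (x n)‖ : 𝕜) := by
    intro n
    rw [dot_transp, hy2]
  have hTlim0 : Tendsto (fun n => ‖transp (p := p) S (y n)‖) atTop (𝓝 M) := by
    refine tendsto_of_tendsto_of_tendsto_of_le_of_le hxlim tendsto_const_nhds (fun n => ?_)
      (fun n => ?_)
    · have h1 := dot_le (transp (p := p) S (y n)) (x n)
      rw [hdot, RCLike.norm_ofReal, abs_of_nonneg (norm_nonneg _), hx1, mul_one] at h1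
      exact h1
    · have h1 := hW (y n)
      rw [hy1, mul_one] at h1
      exact h1
  have hTlim : Tendsto (fun n => ‖(J.comp (transp (p := p) S)) (y n)‖) atTop (𝓝 M) := by
    simpa only [ContinuousLinearMap.comp_apply, hJ] using hTlim0
  have hTn : ‖J.comp (transp (p := p) S)‖ = M := norm_eq_of _ M hM.le hTle y hy1 hTlim
  refine ⟨J.comp (transp (p := p) S), y, c0.comp (transp (p := p) S), hy1, ?_, ?_, ?_⟩
  · rw [hTn]
    exact hTlim
  · intro h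
    have h1 : Tendsto (fun n => ‖transp (p := p) S (y n) - (M : 𝕜) • star (x n)‖ ^ 2) atTop
        (𝓝 0) := by
      have h2 : ∀ n, ‖transp (p := p) S (y n) - (M : 𝕜) • star (x n)‖ ^ 2
          = ‖transp (p := p) S (y n)‖ ^ 2 - 2 * M * ‖S (x n)‖ + M ^ 2 * 1 := by
        intro n
        rw [norm_sub_star_sq, hdot, hx1, RCLike.ofReal_re, one_pow]
      simp_rw [h2]
      have h3 : (0 : ℝ) = M ^ 2 - 2 * M * M + M ^ 2 * 1 := by ring
      rw [h3]
      exact ((hTlim0.pow 2).sub (hxlim.const_mul (2 * M))).add tendsto_const_nhds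
    have h4 : Tendsto (fun n => ‖transp (p := p) S (y n) - (M : 𝕜) • star (x n)‖) atTop (𝓝 0) := by
      have h5 := h1.sqrt
      rw [Real.sqrt_zero] at h5
      refine h5.congr (fun n => ?_)
      rw [Real.sqrt_sq (norm_nonneg _)]
    have h6 : Tendsto (fun n => c0 (transp (p := p) S (y n) - (M : 𝕜) • star (x n))) atTop
        (𝓝 0) := by
      have h7 := tendsto_zero_iff_norm_tendsto_zero.2 h4
      have h8 := ((c0 (𝕜 := 𝕜)).continuous.tendsto 0).comp h7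
      rw [map_zero] at h8
      exact h8
    have h9 : ∀ n, c0 (transp (p := p) S (y n) - (M : 𝕜) • star (x n))
        = c0 (transp (p := p) S (y n)) - (M : 𝕜) * star a := by
      intro n
      rw [map_sub, map_smul, c0_apply (star (x n)), lp.star_apply, hx0, smul_eq_mul]
    simp_rw [h9] at h6
    have h10 : Tendsto (fun n => c0 (transp (p := p) S (y n))) atTop (𝓝 0) := h
    have h11 := (h10.sub h6)
    simp only [sub_sub_cancel, sub_zero] at h11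
    have h12 := tendsto_nhds_unique tendsto_const_nhds h11
    rw [mul_eq_zero, star_eq_zero] at h12
    rcases h12 with h12 | h12
    · exact hM.ne' (by exact_mod_cast h12)
    · exact ha h12
  · intro z hz h
    rw [hTn, ContinuousLinearMap.comp_apply, hJ] at h
    have h1 : pair 𝕜 lam p p' z (S (star (transp (p := p) S z)))
        = ((‖transp (p := p) S z‖ ^ 2 : ℝ) : 𝕜) := by
      rw [← dot_transp, dot, inner_self_eq_norm_sq_to_K, norm_star]
      norm_cast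
    have h2 := pair_le z (S (star (transp (p := p) S z)))
    rw [h1, RCLike.norm_ofReal, abs_of_nonneg (by positivity), hz, one_mul, h] at h2
    have h3 : star (transp (p := p) S z) ≠ 0 := by
      intro h0
      rw [star_eq_zero] at h0
      rw [h0, norm_zero] at h
      exact hM.ne h
    have h4 := hlt _ h3
    rw [norm_star, h] at h4
    nlinarith

end assembly

end Pool.N250.WMPLp
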